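import Pool.Agent.PlunRow.Density

/-!
# The exact two-row Plünnecke inequality when the two rows of `k B` are dense
-/

set_option autoImplicit false

open Pool.Agent.PlunTwo Pool.Agent.PlunRow

/-- Let `θ = k' / k` and let `d_j` be the density of the row `j` of `k B`. Then
`σ_N(A + k' B) ≥ σ_N(A) ^ (1 - θ) min(d_0, (d_0 + d_1) / 2) ^ θ`. In particular the inequality
`σ_N(A + k' B) ≥ σ_N(A) ^ (1 - θ) σ_N(k B) ^ θ` of the problem holds for all `A` and all
`0 < k' < k` if `d_0 + d_1 ≥ 2 σ_N(k B)`. -/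
theorem Pool.Agent.Results.MP_a106e5_co.RowDensity.result (N k' k : ℕ) (hk' : 0 < k')
    (hk : k' < k) (A B : Set (ℕ × ℕ)) :
    sigma N A ^ (1 - (k' : ℝ) / k) * (min (rowSigma N 0 (kfold B k))
      ((rowSigma N 0 (kfold B k) + rowSigma N 1 (kfold B k)) / 2)) ^ ((k' : ℝ) / k) ≤
        sigma N (msum A (kfold B k')) ∧
    (2 * sigma N (kfold B k) ≤ rowSigma N 0 (kfold B k) + rowSigma N 1 (kfold B k) →
      sigma N A ^ (1 - (k' : ℝ) / k) * sigma N (kfold B k) ^ ((k' : ℝ) / k) ≤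
        sigma N (msum A (kfold B k'))) :=
  ⟨density_min hk' hk A B, density_exact hk' hk A B⟩
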