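import Pool.Agent.H65V.Fin3

/-!
# The exact two-row Plünnecke inequality for all `k' < k` outside a small range
-/

set_option autoImplicit false

open Pool.Agent.PlunTwo Pool.Agent.H65R

/-- Let `θ = k' / k`. The inequality `σ_N(A + k' B) ≥ σ_N(A) ^ (1 - θ) σ_N(k B) ^ θ` of the problem
holds in each of the following cases:
* the row `0` of `A` has density at least `(4 / 3) σ_N(A)` and `(2 - 2 θ) σ_N(A)`;
* the row `0` of `k B` has density at least `√2 σ_N(k B)`, or `(4 / 3) σ_N(k B)` if `k ≤ 2 k'`;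
* the rows `0` of `A` and `k B` have densities at least `(√5 - 1) σ_N(A)` and
  `(√5 - 1) σ_N(k B)`;
* `k B` has the density `σ_N(k B)` on all staircases with at most `N + 1` points, and `k ≤ 2 k'` or
  the row `0` of `k B` has density at least `(4 / 3) σ_N(k B)` or the row `0` of `A` has density at
  least `(2 - 2 θ) σ_N(A)`.
This is the second part; the first part is the general form with the parameters `a` (the row `0` of
`A`), `c` (the row `0` of `k B`) and `h` (the staircases of `k B`). -/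
theorem Pool.Agent.Results.MP_a106e5_co.SurplusRange.result (N k' k : ℕ) (hk' : 0 < k')
    (hk : k' < k) (A B : Set (ℕ × ℕ)) :
    (∀ α κ a c h : ℝ, 0 ≤ α → 0 ≤ κ → 1 ≤ a → 1 ≤ c →
      OnFirst N A (a * α) → OnBoth N A α →
      OnFirst N (kfold B k) (c * κ) → OnBoth N (kfold B k) κ →
      OnSmallStairs N (kfold B k) (h * κ) →
      2 * (1 - (k' : ℝ) / k) * (2 - c) ≤ a * c →
      (2 ≤ a + h ∨ (1 - (k' : ℝ) / k) * (2 - c) * (c - a) ≤ a * (c + h - 2)) →
      α ^ (1 - (k' : ℝ) / k) * κ ^ ((k' : ℝ) / k) ≤ sigma N (msum A (kfold B k'))) ∧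
    (OnFirst N A (max (4 / 3) (2 - 2 * ((k' : ℝ) / k)) * sigma N A) ∨
      OnFirst N (kfold B k) (√2 * sigma N (kfold B k)) ∨
      (k ≤ 2 * k' ∧ OnFirst N (kfold B k) (4 / 3 * sigma N (kfold B k))) ∨
      (OnFirst N A ((√5 - 1) * sigma N A) ∧
        OnFirst N (kfold B k) ((√5 - 1) * sigma N (kfold B k))) ∨
      (OnSmallStairs N (kfold B k) (sigma N (kfold B k)) ∧
        (k ≤ 2 * k' ∨ OnFirst N (kfold B k) (4 / 3 * sigma N (kfold B k)) ∨
          OnFirst N A ((2 - 2 * ((k' : ℝ) / k)) * sigma N A))) →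
      sigma N A ^ (1 - (k' : ℝ) / k) * sigma N (kfold B k) ^ ((k' : ℝ) / k) ≤
        sigma N (msum A (kfold B k'))) :=
  ⟨fun _ _ _ _ _ hα hκ ha hc hA0 hA hK0 hK hS hG hM =>
    Pool.Agent.H65V.density_uni hk' hk A B hα hκ ha hc hA0 hA hK0 hK hS hG hM,
    Pool.Agent.H65V.density_simple hk' hk A B⟩
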