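import Pool.Agent.PlunTwo.Final

/-!
# A two-row Plünnecke inequality up to the factor 0.965
-/

set_option autoImplicit false

open Pool.Agent.PlunTwo

/-- Let `θ = k' / k`. Then `σ_N(A + k' B) ≥ c(θ) σ_N(A) ^ (1 - θ) σ_N(k B) ^ θ` with
`c(θ) = ((1/2) ^ θ + (3/2) ^ θ) / 2 ≥ 0.965`. If moreover `A` has at least `λ σ_N(A) |S|` points
in every staircase `S` (always true for `λ = 2/3`) and the first row of `k B` has density at least
`s σ_N(k B)` (always true for `s = 1`) then `c(θ)` can be replaced by `factor λ s θ`, which is `1`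
if `λ = 1` or `s = 2`. -/
theorem Pool.Agent.Results.MP_a106e5_co.UpToConstant.result (N k' k : ℕ) (hk' : 0 < k')
    (hk : k' < k) (A B : Set (ℕ × ℕ)) :
    (((1 / 2 : ℝ) ^ ((k' : ℝ) / k) + (3 / 2 : ℝ) ^ ((k' : ℝ) / k)) / 2 *
        (sigma N A ^ (1 - (k' : ℝ) / k) * sigma N (kfold B k) ^ ((k' : ℝ) / k)) ≤
          sigma N (msum A (kfold B k')) ∧
      0.965 ≤ ((1 / 2 : ℝ) ^ ((k' : ℝ) / k) + (3 / 2 : ℝ) ^ ((k' : ℝ) / k)) / 2) ∧
    (∀ lam s : ℝ, 2 / 3 ≤ lam → lam ≤ 1 → 1 ≤ s → s ≤ 2 →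
      OnStairs N A (lam * sigma N A) →
      OnFirst N (kfold B k) (s * sigma N (kfold B k)) →
      factor lam s ((k' : ℝ) / k) *
        (sigma N A ^ (1 - (k' : ℝ) / k) * sigma N (kfold B k) ^ ((k' : ℝ) / k)) ≤
          sigma N (msum A (kfold B k')) ∧
      (lam = 1 ∨ s = 2 → factor lam s ((k' : ℝ) / k) = 1)) := by
  obtain ⟨h0, h1⟩ := theta_pos hk' hk
  refine ⟨⟨?_, half_sum_ge h0.le h1.le⟩, fun lam s g1 g2 g3 g4 g5 g6 => ⟨density hk' hk A B
    (by linarith) g2 g3 g4 g5 g6, ?_⟩⟩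
  · have h := density hk' hk A B (by norm_num) (by norm_num) le_rfl (by norm_num)
      (onStairs_always N A) (onFirst_always N (kfold B k))
    have e : factor (2 / 3) 1 ((k' : ℝ) / k) =
        ((1 / 2 : ℝ) ^ ((k' : ℝ) / k) + (3 / 2 : ℝ) ^ ((k' : ℝ) / k)) / 2 := by
      unfold factor
      rw [show (2 - 2 / 3 - 1 * (1 - 2 / 3)) / (2 / 3) = (3 / 2 : ℝ) by norm_num]
      ring
    rwa [e] at h
  · rintro (h | h)
    · subst h
      exact factor_one
    · subst h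
      exact factor_two (by linarith) g2
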